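import Pool.Agent.H.MP_35c8d5.A

namespace Pool.Agent.H.MP_16d9f2

open Filter Topology Set Cardinal

theorem hull {P ι κ : Type} [Countable κ] (op : κ → P → P → P) (o : P) (s : ι → P) :
    ∃ H : Set ι → Set P, (∀ T, o ∈ H T) ∧ (∀ T, ∀ j ∈ T, s j ∈ H T) ∧
      (∀ T n, ∀ a ∈ H T, ∀ b ∈ H T, op n a b ∈ H T) ∧ Monotone H ∧
      (∀ T, ∀ a ∈ H T, ∃ F ⊆ T, F.Finite ∧ a ∈ H F) ∧ (∀ T, #(H T) ≤ max #T ℵ₀) ∧
      ∀ T (Q : Set P), o ∈ Q → (∀ j ∈ T, s j ∈ Q) → (∀ n, ∀ a ∈ Q, ∀ b ∈ Q, op n a b ∈ Q) →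
        H T ⊆ Q := by
  obtain ⟨L, L0, L1⟩ : ∃ L : Set ι → ℕ → Set P, (∀ T, L T 0 = insert o (s '' T)) ∧
      ∀ T k, L T (k + 1) = L T k ∪ ⋃ n, image2 (op n) (L T k) (L T k) :=
    ⟨fun T k => Nat.rec (motive := fun _ => Set P) (insert o (s '' T))
      (fun _ A => A ∪ ⋃ n, image2 (op n) A A) k, fun _ => rfl, fun _ _ => rfl⟩
  have m1 : ∀ T, Monotone (L T) := fun T => monotone_nat_of_le_succ fun k => by
    rw [L1]; exact subset_union_left
  have m2 : ∀ k S T, S ⊆ T → L S k ⊆ L T k := fun k S T h => by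
    induction k with
    | zero => rw [L0, L0]; gcongr
    | succ k ih => rw [L1, L1]; gcongr
  refine ⟨fun T => ⋃ k, L T k, fun T => mem_iUnion.2 ⟨0, by simp [L0]⟩,
    fun T j h => mem_iUnion.2 ⟨0, by rw [L0]; exact .inr ⟨j, h, rfl⟩⟩, fun T n a ha b hb => ?_,
    fun S T h => iUnion_mono fun k => m2 k S T h, fun T a ha => ?_, fun T => ?_,
    fun T Q q0 q1 q2 => iUnion_subset fun k => ?_⟩
  · obtain ⟨k, hk⟩ := mem_iUnion.1 ha
    obtain ⟨l, hl⟩ := mem_iUnion.1 hb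
    refine mem_iUnion.2 ⟨max k l + 1, ?_⟩
    rw [L1]
    exact .inr (mem_iUnion.2 ⟨n, a, m1 T (le_max_left _ _) hk, b, m1 T (le_max_right _ _) hl, rfl⟩)
  · obtain ⟨k, hk⟩ := mem_iUnion.1 ha
    suffices ∃ F ⊆ T, F.Finite ∧ a ∈ L F k from
      this.imp fun F h => ⟨h.1, h.2.1, mem_iUnion.2 ⟨k, h.2.2⟩⟩
    clear ha
    induction k generalizing a with
    | zero =>
      rw [L0] at hk
      rcases hk with rfl | ⟨j, h, rfl⟩
      · exact ⟨∅, by simp, by simp, by simp [L0]⟩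
      · exact ⟨{j}, by simpa, by simp, by simp [L0]⟩
    | succ k ih =>
      rw [L1] at hk
      rcases hk with h | h
      · obtain ⟨F, a1, a2, a3⟩ := ih _ h
        exact ⟨F, a1, a2, m1 F k.le_succ a3⟩
      · obtain ⟨n, b, hb, c, hc, rfl⟩ := mem_iUnion.1 h
        obtain ⟨F, a1, a2, a3⟩ := ih _ hb
        obtain ⟨G, b1, b2, b3⟩ := ih _ hc
        refine ⟨F ∪ G, union_subset a1 b1, a2.union b2, ?_⟩
        rw [L1]
        exact .inr (mem_iUnion.2 ⟨n, b, m2 k _ _ subset_union_left a3, c,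
          m2 k _ _ subset_union_right b3, rfl⟩)
  · have i : ℵ₀ ≤ max #T ℵ₀ := le_max_right _ _
    have u : ∀ {α : Type} [Countable α] (A : α → Set P), (∀ n, #(A n) ≤ max #T ℵ₀) →
        #(⋃ n, A n) ≤ max #T ℵ₀ := fun A h => (mk_iUnion_le A).trans
      ((mul_le_mul' (mk_le_aleph0.trans i) (ciSup_le' h)).trans_eq (mul_eq_self i))
    refine u _ fun k => ?_
    induction k with
    | zero =>
      rw [L0]
      exact mk_insert_le.trans ((add_le_add (mk_image_le.trans (le_max_left _ _))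
        (one_le_aleph0.trans i)).trans_eq (add_eq_self i))
    | succ k ih =>
      rw [L1]
      exact (mk_union_le _ _).trans ((add_le_add ih (u _ fun n => mk_image2_le.trans
        ((mul_le_mul' ih ih).trans_eq (mul_eq_self i)))).trans_eq (add_eq_self i))
  · induction k with
    | zero =>
      rw [L0]
      rintro _ (rfl | ⟨j, h, rfl⟩)
      exacts [q0, q1 j h]
    | succ k ih =>
      rw [L1]
      refine union_subset ih (iUnion_subset fun n => ?_)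
      rintro _ ⟨a, ha, b, hb, rfl⟩
      exact q2 n a (ih ha) b (ih hb)

theorem sub {V : Type} [NormedAddCommGroup V] [NormedSpace ℝ V] (A : Set V) (h0 : 0 ∈ A)
    (h1 : ∀ a ∈ A, ∀ b ∈ A, a + b ∈ A) (h2 : ∀ q : ℚ, ∀ a ∈ A, (q : ℝ) • a ∈ A) :
    ∃ W : Submodule ℝ V, (W : Set V) = closure A :=
  ⟨⟨⟨⟨closure A, fun ha hb => map_mem_closure₂ continuous_add ha hb h1⟩, subset_closure h0⟩,
    fun t _ ha => map_mem_closure₂ continuous_smul (Rat.denseRange_cast t) ha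
      (forall_mem_range.2 h2)⟩, rfl⟩

variable {X : Type} [NormedAddCommGroup X] [NormedSpace ℝ X]

theorem ann {U : Submodule ℝ X} (hU : IsClosed (U : Set X)) {u : X}
    (h : ∀ f : X →L[ℝ] ℝ, (∀ a ∈ U, f a = 0) → f u = 0) : u ∈ U := by
  by_contra k
  obtain ⟨c, r, c1, c2⟩ := geometric_hahn_banach_closed_point U.convex hU k
  have c3 : ∀ a ∈ U, c a = 0 := fun a ha => by
    by_contra h
    have := c1 _ (U.smul_mem (r / c a) ha)
    simp [h] at this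
  have := (c1 _ U.zero_mem).trans c2
  simp [h c c3] at this

theorem dec0 (R : Function.Surjective (NormedSpace.inclusionInDoubleDual ℝ X)) {V : Type}
    [NormedAddCommGroup V] [NormedSpace ℝ V] (ι : V →L[ℝ] X) (hι : ∀ v, ‖ι v‖ = ‖v‖)
    (Y : Submodule ℝ (X →L[ℝ] ℝ)) (z : X)
    (h : ∀ g ∈ Y, ∀ c, 0 ≤ c → (∀ v, g (ι v) ≤ c * ‖ι v‖) → g z ≤ c * ‖z‖) :
    ∃ u, (∀ f : X →L[ℝ] ℝ, (∀ v, f (ι v) = 0) → f u = 0) ∧ ∀ g ∈ Y, g u = g z := by
  obtain ⟨Φ, p1, p2⟩ := exists_extension_of_le_sublinear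
    ((NormedSpace.inclusionInDoubleDual ℝ X z).toLinearMap.toPMap Y)
    (fun g : X →L[ℝ] ℝ => ‖g.comp ι‖ * ‖z‖)
    (fun c hc g => by simp [norm_smul, abs_of_pos hc, mul_assoc])
    (fun a b => by
      rw [ContinuousLinearMap.add_comp, ← add_mul]
      gcongr
      exact norm_add_le _ _) fun g => h g.1 g.2 _ (norm_nonneg _) fun v =>
        (le_abs_self _).trans (hι v ▸ (g.1.comp ι).le_opNorm v)
  have p3 : ∀ g, |Φ g| ≤ ‖g.comp ι‖ * ‖z‖ := fun g =>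
    abs_le.2 ⟨by have := p2 (-g); simp at this; linarith, p2 g⟩
  obtain ⟨u, hu⟩ := R (Φ.mkContinuous ‖z‖ fun g => (p3 g).trans (by
    rw [mul_comm]
    gcongr
    exact ContinuousLinearMap.opNorm_le_bound _ (norm_nonneg _) fun v => hι v ▸ g.le_opNorm (ι v)))
  have p4 : ∀ g : X →L[ℝ] ℝ, g u = Φ g := fun g => congrArg (fun c => c g) hu
  refine ⟨u, fun f hf => ?_, fun g hg => (p4 g).trans (p1 ⟨g, hg⟩)⟩
  have := p3 f
  rw [show f.comp ι = 0 from ContinuousLinearMap.ext hf] at this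
  simpa [p4] using this

theorem dec (R : Function.Surjective (NormedSpace.inclusionInDoubleDual ℝ X))
    {U : Submodule ℝ X} (hU : IsClosed (U : Set X)) (Y : Submodule ℝ (X →L[ℝ] ℝ)) (z : X)
    (h : ∀ g ∈ Y, ∀ c, 0 ≤ c → (∀ v ∈ U, g v ≤ c * ‖v‖) → g z ≤ c * ‖z‖) :
    ∃ u ∈ U, ∀ g ∈ Y, g u = g z := by
  obtain ⟨u, h1, h2⟩ := dec0 R U.subtypeL (fun _ => rfl) Y z fun g hg c c0 k =>
    h g hg c c0 fun v hv => k ⟨v, hv⟩
  exact ⟨u, ann hU fun f hf => h1 f fun v => hf v.1 v.2, h2⟩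

end Pool.Agent.H.MP_16d9f2
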