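import Pool.Agent.H.MP_16d9f2.A

namespace Pool.Agent.H.MP_16d9f2

open Filter Topology Set Cardinal

variable {X : Type} [NormedAddCommGroup X] [NormedSpace ℝ X]

def Fam (Z E : Set X) : Prop :=
  E ⊆ Z ∧ (∀ e ∈ E, ‖e‖ ≤ 1) ∧ (∀ f : X →L[ℝ] ℝ, ∀ ε > 0, {e ∈ E | ε < |f e|}.Finite) ∧
    Z ⊆ closure (Submodule.span ℝ E)

theorem her (Z : Submodule ℝ X) {A : Set X} (h : (Z : Set X) ⊆ closure A) :
    ∃ w : A × ℕ → X, (∀ p, w p ∈ Z) ∧ (Z : Set X) ⊆ closure (range w) := by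
  have : ∀ p : A × ℕ, ∃ w ∈ Z, ∀ z ∈ Z, dist z p.1 < 1 / (p.2 + 1) → dist w p.1 < 1 / (p.2 + 1) :=
    fun p => by
      by_cases k : ∃ z ∈ Z, dist z p.1 < 1 / (p.2 + 1)
      · exact k.imp fun w hw => ⟨hw.1, fun _ _ _ => hw.2⟩
      · exact ⟨0, Z.zero_mem, fun z a b => (k ⟨z, a, b⟩).elim⟩
  choose w w1 w2 using this
  refine ⟨w, w1, fun z hz => Metric.mem_closure_iff.2 fun ε hε => ?_⟩
  obtain ⟨n, hn⟩ := exists_nat_one_div_lt (half_pos hε)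
  obtain ⟨a, ha, k⟩ := Metric.mem_closure_iff.1 (h hz) (1 / (n + 1)) Nat.one_div_pos_of_nat
  refine ⟨_, ⟨(⟨a, ha⟩, n), rfl⟩, ?_⟩
  have := w2 (⟨a, ha⟩, n) z hz k
  linarith [dist_triangle_right z (w (⟨a, ha⟩, n)) a]

theorem base (Z : Submodule ℝ X) (d : ℕ → X) (d1 : ∀ n, d n ∈ Z)
    (d2 : (Z : Set X) ⊆ closure (range d)) : ∃ E, Fam (Z : Set X) E := by
  obtain ⟨e, he⟩ : ∃ e : ℕ → X, ∀ n, e n = ((n + 1) * (‖d n‖ + 1))⁻¹ • d n := ⟨_, fun _ => rfl⟩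
  have e1 : ∀ n, ‖e n‖ * (n + 1) ≤ 1 := fun n => by
    rw [he, norm_smul, Real.norm_of_nonneg (by positivity)]
    field_simp
    linarith
  refine ⟨range e, forall_mem_range.2 fun n => he n ▸ Z.smul_mem _ (d1 n),
    forall_mem_range.2 fun n => by nlinarith [e1 n, norm_nonneg (e n), n.cast_nonneg (α := ℝ)],
    fun f ε hε => ?_, d2.trans (closure_mono (forall_mem_range.2 fun n => ?_))⟩
  · obtain ⟨m, hm⟩ := exists_nat_gt (‖f‖ / ε)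
    refine ((finite_lt_nat m).image e).subset ?_
    rintro _ ⟨⟨n, rfl⟩, h⟩
    refine ⟨n, ?_, rfl⟩
    have := h.trans_le (f.le_opNorm (e n))
    rw [div_lt_iff₀ hε] at hm
    have k : (n : ℝ) < m := by
      nlinarith [mul_le_mul_of_nonneg_left (e1 n) (norm_nonneg f), n.cast_nonneg (α := ℝ)]
    exact_mod_cast k
  · have : d n = ((n + 1) * (‖d n‖ + 1)) • e n := by
      rw [he, smul_smul, mul_inv_cancel₀ (by positivity), one_smul]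
    rw [this]
    exact Submodule.smul_mem _ _ (Submodule.subset_span ⟨n, rfl⟩)

theorem exM (Z : Submodule ℝ X) (g : X →L[ℝ] ℝ) (n : ℕ) : ∃ z ∈ Z, (g = 0 → z = 0) ∧ ‖z‖ ≤ 1 ∧
    ∀ v ∈ Z, g v ≤ (g z + 1 / (n + 1)) * ‖v‖ := by
  by_cases h : g = 0
  · exact ⟨0, Z.zero_mem, fun _ => rfl, by simp, fun v _ => by simp [h]; positivity⟩
  have b : BddAbove (g '' {v | v ∈ Z ∧ ‖v‖ ≤ 1}) := ⟨‖g‖, forall_mem_image.2 fun v hv =>
    (le_abs_self _).trans ((g.le_opNorm v).trans (mul_le_of_le_one_right (norm_nonneg _) hv.2))⟩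
  obtain ⟨_, ⟨z, hz, rfl⟩, k⟩ := exists_lt_of_lt_csSup
    (.image g (show {v | v ∈ Z ∧ ‖v‖ ≤ 1}.Nonempty from ⟨0, Z.zero_mem, by simp⟩))
    (sub_lt_self (sSup (g '' {v | v ∈ Z ∧ ‖v‖ ≤ 1})) (Nat.one_div_pos_of_nat (n := n)))
  refine ⟨z, hz.1, fun a => (h a).elim, hz.2, fun v hv => ?_⟩
  by_cases v0 : v = 0
  · simp [v0]
  have p := norm_pos_iff.2 v0
  have := le_csSup b ⟨‖v‖⁻¹ • v, ⟨Z.smul_mem _ hv, by simp [norm_smul, v0]⟩, rfl⟩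
  rw [map_smul, smul_eq_mul, inv_mul_le_iff₀ p] at this
  nlinarith

theorem skel (R : Function.Surjective (NormedSpace.inclusionInDoubleDual ℝ X)) {ι : Type}
    (Z : Submodule ℝ X) (hZ : IsClosed (Z : Set X)) (d : ι → X) (d1 : ∀ j, d j ∈ Z) :
    ∃ (A : Set ι → Set X) (U : Set ι → Submodule ℝ X) (Y : Set ι → Set (X →L[ℝ] ℝ)),
      (∀ T, (U T : Set X) = closure (A T)) ∧ Monotone A ∧ Monotone Y ∧ (∀ T, ∀ j ∈ T, d j ∈ A T) ∧
      (∀ T, U T ≤ Z) ∧ A ∅ ⊆ {0} ∧ (∀ T, ∀ a ∈ A T, ∃ F ⊆ T, F.Finite ∧ a ∈ A F) ∧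
      (∀ T, #(A T) ≤ max #T ℵ₀) ∧ (∀ T, ∀ a ∈ A T, ∃ g ∈ Y T, ‖g‖ ≤ 1 ∧ g a = ‖a‖) ∧
      ∀ T, ∀ z ∈ Z, ∃ u ∈ U T, ∀ g ∈ Y T, g u = g z := by
  have : ∀ x : X, ∃ g : X →L[ℝ] ℝ, ‖g‖ ≤ 1 ∧ g x = ‖x‖ ∧ (x = 0 → g = 0) := fun x => by
    by_cases h : x = 0
    · exact ⟨0, by simp, by simp [h], fun _ => rfl⟩
    · exact (exists_dual_vector'' ℝ x).imp fun g k => ⟨k.1, k.2, fun a => (h a).elim⟩
  choose N N1 N2 N3 using this
  choose M M1 M2 M3 M4 using exM Z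
  obtain ⟨H, h0, h1, h2, h3, h4, h5, h6⟩ := hull (P := X × (X →L[ℝ] ℝ))
    (fun n : ℚ ⊕ ℕ => n.elim (fun (q : ℚ) a b => (q : ℝ) • a + b) fun n a _ => (M a.2 n, N a.1)) 0
    fun j => (d j, 0)
  have s : ∀ {V : Type} [NormedAddCommGroup V] [NormedSpace ℝ V] (π : X × (X →L[ℝ] ℝ) →ₗ[ℝ] V) T,
      ∃ W : Submodule ℝ V, (W : Set V) = closure (π '' H T) := fun π T =>
    sub _ ⟨0, h0 T, by simp⟩
      (by
        rintro _ ⟨a, ha, rfl⟩ _ ⟨b, hb, rfl⟩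
        exact ⟨_, h2 T (.inl 1) a ha b hb, by simp⟩)
      (by
        rintro q _ ⟨a, ha, rfl⟩
        exact ⟨_, h2 T (.inl q) a ha 0 (h0 T), by simp⟩)
  choose U hU using s (LinearMap.fst ℝ _ _)
  choose Y hY using s (LinearMap.snd ℝ _ _)
  refine ⟨fun T => Prod.fst '' H T, U, fun T => Y T, hU, fun S T h => image_mono (h3 h),
    fun S T h => ?_, fun T j h => ⟨_, h1 T j h, rfl⟩, fun T => ?_, ?_, ?_,
    fun T => mk_image_le.trans (h5 T), ?_, fun T z hz => dec R (hU T ▸ isClosed_closure) (Y T) z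
      fun g hg c c0 k => ?_⟩
  · dsimp only
    rw [hY, hY]
    exact closure_mono (image_mono (h3 h))
  · rw [← SetLike.coe_subset_coe, hU]
    refine closure_minimal (image_subset_iff.2 (h6 T _ Z.zero_mem (fun j _ => d1 j) ?_)) hZ
    rintro (q | n) a ha b hb
    exacts [Z.add_mem (Z.smul_mem _ ha) hb, M1 _ _]
  · rintro _ ⟨a, ha, rfl⟩
    have : a ∈ ({0} : Set _) := h6 ∅ {0} rfl (by simp) (by
      rintro (q | n) a rfl b rfl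
      · simp
      · exact Prod.ext (M2 _ _ rfl) (N3 _ rfl)) ha
    rw [this]
    rfl
  · rintro T _ ⟨a, ha, rfl⟩
    obtain ⟨F, a1, a2, a3⟩ := h4 T a ha
    exact ⟨F, a1, a2, a, a3, rfl⟩
  · rintro T _ ⟨a, ha, rfl⟩
    refine ⟨N a.1, ?_, N1 _, N2 _⟩
    dsimp only
    rw [hY]
    exact subset_closure ⟨_, h2 T (.inr 0) a ha a ha, rfl⟩
  · rw [← SetLike.mem_coe, hY] at hg
    refine le_of_forall_pos_le_add fun ε hε => ?_
    obtain ⟨n, hn⟩ := exists_nat_one_div_lt (show 0 < ε / (3 * (‖z‖ + 1)) by positivity)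
    obtain ⟨_, ⟨a, ha, rfl⟩, l⟩ := Metric.mem_closure_iff.1 hg _ (Nat.one_div_pos_of_nat (n := n))
    rw [dist_eq_norm] at l
    have m : M a.2 n ∈ U T := by
      rw [← SetLike.mem_coe, hU]
      exact subset_closure ⟨_, h2 T (.inr n) a ha a ha, rfl⟩
    have p : ∀ v, |g v - a.2 v| ≤ 1 / (n + 1) * ‖v‖ := fun v =>
      ((g - a.2).le_opNorm v).trans (mul_le_mul_of_nonneg_right l.le (norm_nonneg _))
    have k1 := (k _ m).trans (mul_le_of_le_one_right c0 (M3 _ _))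
    have k2 := (abs_le.1 ((p (M a.2 n)).trans
      (mul_le_of_le_one_right Nat.one_div_pos_of_nat.le (M3 _ _)))).1
    have k3 := (M4 a.2 n z hz).trans (mul_le_mul_of_nonneg_right
      (show _ ≤ c + 2 * (1 / (n + 1)) by linarith) (norm_nonneg z))
    rw [lt_div_iff₀ (by positivity)] at hn
    nlinarith [(abs_le.1 (p z)).2, Nat.one_div_pos_of_nat (n := n) (α := ℝ)]

end Pool.Agent.H.MP_16d9f2
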