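import Pool.Agent.H.MP_16d9f2.B

namespace Pool.Agent.H.MP_16d9f2

open Filter Topology Set Cardinal

variable {X : Type} [NormedAddCommGroup X] [NormedSpace ℝ X]
  (R : Function.Surjective (NormedSpace.inclusionInDoubleDual ℝ X))

include R

theorem step {ι : Type} [LinearOrder ι] [WellFoundedLT ι] (Z : Submodule ℝ X)
    (hZ : IsClosed (Z : Set X)) (d : ι → X) (d1 : ∀ j, d j ∈ Z)
    (d2 : (Z : Set X) ⊆ closure (range d))
    (ih : ∀ i : ι, ∀ W : Submodule ℝ X, IsClosed (W : Set X) → ∀ A : Set X, #A ≤ max #(Iic i) ℵ₀ →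
      (W : Set X) ⊆ closure A → ∃ E, Fam (W : Set X) E) : ∃ E, Fam (Z : Set X) E := by
  obtain ⟨A, U, Y, hU, mA, mY, a1, a2, a3, a4, a5, a6, a7⟩ := skel R Z hZ d d1
  have mU : ∀ S T, S ⊆ T → ∀ x ∈ U S, x ∈ U T := fun S T h x hx => by
    rw [← SetLike.mem_coe, hU] at hx ⊢
    exact closure_mono (mA h) hx
  have : ∀ i, ∃ E, Fam {x | x ∈ U (Iic i) ∧ ∀ g ∈ Y (Iio i), g x = 0} E := fun i =>
    ih i ⟨⟨⟨{x | x ∈ U (Iic i) ∧ ∀ g ∈ Y (Iio i), g x = 0}, fun a b => ⟨add_mem a.1 b.1,
      fun g h => by simp [a.2 g h, b.2 g h]⟩⟩, zero_mem _, by simp⟩,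
      fun t x a => ⟨Submodule.smul_mem _ _ a.1, fun g h => by simp [a.2 g h]⟩⟩
      (by
        refine IsClosed.inter (hU _ ▸ isClosed_closure : IsClosed (U (Iic i) : Set X)) ?_
        show IsClosed {x | ∀ g ∈ Y (Iio i), g x = 0}
        simp only [ofPred_forall]
        exact isClosed_iInter fun g => isClosed_iInter fun _ =>
          isClosed_eq g.continuous continuous_const) _ (a5 _) fun x h => hU _ ▸ h.1
  choose E e1 e2 e3 e4 using this
  refine ⟨⋃ i, E i, iUnion_subset fun i x h => a2 _ (e1 i h).1,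
    fun x h => (mem_iUnion.1 h).elim fun i => e2 i x, fun f ε hε => ?_, ?_⟩
  · by_contra k
    have I : {i | ∃ e ∈ E i, ε < |f e|}.Infinite := fun h => k ((h.biUnion
      fun i _ => e3 i f ε hε).subset fun x hx => (mem_iUnion.1 hx.1).elim fun i hi =>
        mem_biUnion (show i ∈ {i | ∃ e ∈ E i, ε < |f e|} from ⟨x, hi, hx.2⟩) ⟨hi, hx.2⟩)
    obtain ⟨φ, hφ⟩ := (wellQuasiOrdered_le (α := ι)).exists_monotone_subseq
      fun n => (I.natEmbedding _ n).1
    obtain ⟨i, i1, i2⟩ : ∃ i : ℕ → ι, StrictMono i ∧ ∀ n, ∃ e ∈ E (i n), ε < |f e| :=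
      ⟨fun n => (I.natEmbedding _ (φ n)).1, fun m n h => (hφ m n h.le).lt_of_ne fun a =>
        h.ne (φ.injective ((I.natEmbedding _).injective (Subtype.ext a))),
        fun n => (I.natEmbedding _ (φ n)).2⟩
    choose e x1 x2 using i2
    obtain ⟨c, -, hc⟩ := MP_35c8d5.ulim (hyperfilter ℕ)
      (fun n => NormedSpace.inclusionInDoubleDual ℝ X (e n)) zero_le_one
      (.of_forall fun n => (NormedSpace.double_dual_bound ℝ X _).trans (e2 _ _ (x1 n)))
    obtain ⟨u, rfl⟩ := R c
    have hu : ∀ g : X →L[ℝ] ℝ, Tendsto (fun n => g (e n)) (hyperfilter ℕ) (𝓝 (g u)) := hc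
    have z : ∀ (g : X →L[ℝ] ℝ) m, (∀ n ≥ m, g (e n) = 0) → g u = 0 := fun g m h =>
      tendsto_nhds_unique (hu g) (tendsto_const_nhds.congr' (Nat.hyperfilter_le_atTop
        ((eventually_ge_atTop m).mono fun n hn => (h n hn).symm)))
    have u1 : u ∈ U {j | ∃ n, j < i n} := ann (hU _ ▸ isClosed_closure) fun g hg =>
      z g 0 fun n _ => hg _ (mU (Iic (i n)) {j | ∃ n, j < i n} (fun j hj => 
        ⟨n + 1, lt_of_le_of_lt hj (i1 n.lt_succ_self)⟩) _
        (e1 _ (x1 n)).1)
    rw [← SetLike.mem_coe, hU] at u1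
    have u2 : u ∈ {a | ‖a‖ ≤ ‖a - u‖} := closure_minimal (fun a ha => by
      obtain ⟨F, f1, f2, f3⟩ := a4 _ a ha
      obtain ⟨m, hm⟩ : ∃ m, ∀ n ≥ m, F ⊆ Iio (i n) := eventually_atTop.1
        ((eventually_all_finite f2).2 fun j hj => (f1 hj).elim fun n hn =>
          (eventually_ge_atTop n).mono fun l hl => hn.trans_le (i1.monotone hl))
      obtain ⟨g, g1, g2, g3⟩ := a6 F a f3
      have := (le_abs_self _).trans ((g.le_opNorm (a - u)).trans
        (mul_le_of_le_one_left (norm_nonneg _) g2))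
      rwa [map_sub, z g m fun n hn => (e1 _ (x1 n)).2 g (mY (hm n hn) g1), sub_zero, g3] at this)
      (isClosed_le (by fun_prop) (by fun_prop)) u1
    have u3 : u = 0 := by simpa using u2
    have := ge_of_tendsto' (hu f).abs fun n => (x2 n).le
    simp [u3] at this
    linarith
  · obtain ⟨C, hC⟩ : ∃ C : Submodule ℝ X, C = (Submodule.span ℝ (⋃ i, E i)).topologicalClosure :=
      ⟨_, rfl⟩
    have c : (C : Set X) = closure (Submodule.span ℝ (⋃ i, E i)) := by rw [hC]; rfl
    have k : ∀ i, ∀ z ∈ U (Iic i), z ∈ C := fun i => by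
      induction i using WellFoundedLT.induction with
      | ind i h =>
        intro z hz
        obtain ⟨u, u1, u2⟩ := a7 (Iio i) z (a2 _ hz)
        have w : z - u ∈ C := by
          rw [← SetLike.mem_coe, c]
          exact closure_mono (Submodule.span_mono (subset_iUnion E i)) (e4 i
            ⟨sub_mem hz (mU _ _ Iio_subset_Iic_self u u1), fun g hg => by simp [u2 g hg]⟩)
        rw [← SetLike.mem_coe, hU] at u1
        have : u ∈ C := closure_minimal (fun a ha => by
          obtain ⟨F, f1, f2, f3⟩ := a4 _ a ha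
          rcases F.eq_empty_or_nonempty with rfl | n
          · rw [a3 f3]
            exact C.zero_mem
          · obtain ⟨j, j1, j2⟩ := exists_max_image F id f2 n
            exact h j (f1 j1) a (mU F _ j2 a (by
              rw [← SetLike.mem_coe, hU]
              exact subset_closure f3))) (c ▸ isClosed_closure : IsClosed (C : Set X)) u1
        simpa using add_mem w this
    rw [← c]
    refine d2.trans (closure_minimal (forall_mem_range.2 fun j => k j _ ?_) (c ▸ isClosed_closure))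
    rw [← SetLike.mem_coe, hU]
    exact subset_closure (a1 _ j le_rfl)

theorem fam (κ : Cardinal) : ∀ Z : Submodule ℝ X, IsClosed (Z : Set X) → ∀ A : Set X, #A ≤ κ →
    (Z : Set X) ⊆ closure A → ∃ E, Fam (Z : Set X) E := by
  induction κ using WellFoundedLT.induction with
  | ind κ ih =>
    intro Z hZ A hA h
    obtain ⟨w, w1, w2⟩ := her Z h
    have : Nonempty (A × ℕ) := (closure_nonempty_iff.1 ⟨0, w2 Z.zero_mem⟩).elim
      fun _ ⟨p, _⟩ => ⟨p⟩
    have s : ∀ {ι : Type}, #(A × ℕ) ≤ #ι → ∃ d : ι → X, (∀ j, d j ∈ Z) ∧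
        (Z : Set X) ⊆ closure (range d) := fun ⟨m⟩ => ⟨w ∘ Function.invFun m, fun j => w1 _, by
      rwa [(Function.invFun_surjective m.injective).range_comp]⟩
    rcases le_or_gt κ ℵ₀ with k | k
    · obtain ⟨d, d1, d2⟩ := s (ι := ℕ) (by
        simpa using (mul_le_mul' (hA.trans k) le_rfl).trans_eq aleph0_mul_aleph0)
      exact base Z d d1 d2
    · obtain ⟨d, d1, d2⟩ := s (ι := κ.ord.ToType) (by
        simpa using (mul_le_mul' hA k.le).trans_eq (mul_eq_self k.le))
      refine step R Z hZ d d1 d2 fun i => ih _ (max_lt ?_ k)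
      rw [← Iio_insert]
      exact mk_insert_le.trans_lt (add_lt_of_lt k.le (by simpa using mk_Iio_lt i)
        (one_lt_aleph0.trans k))

end Pool.Agent.H.MP_16d9f2
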