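import Pool.Agent.H.MP_16d9f2.C

namespace Pool.Agent.H.MP_16d9f2

open Filter Topology Set Cardinal

variable {X : Type} [NormedAddCommGroup X] [NormedSpace ℝ X] {E : Set X}

def Has (E : Set X) (ι : X → ℝ) (N : X → X →L[ℝ] ℝ) (j : X → X → ℕ) {K : Type} [Fintype K]
    (t : K → X) (a : K → ℝ) (η : ℝ) (c : (Finset K → K → Prop × ℕ) × (K → ℚ × ℚ × ℚ)) : Prop :=
  (∀ i, t i ∈ E) ∧ (∀ J l, c.1 J l = (N (∑ i ∈ J, a i • t i) (t l) ≠ 0, j (∑ i ∈ J, a i • t i) (t l)))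
    ∧ ∀ l, ι (t l) ∈ Ioo ((c.2 l).1 : ℝ) (c.2 l).2.1 ∧ |N (∑ i, a i • t i) (t l) - (c.2 l).2.2| ≤ η ∧
      ∀ u ∈ E, η < |N (∑ i, a i • t i) u| → ι u ∈ Ioo ((c.2 l).1 : ℝ) (c.2 l).2.1 → u = t l

variable {ι : X → ℝ} {N : X → X →L[ℝ] ℝ} {j : X → X → ℕ} {K : Type} [Fintype K]

theorem ex (hE : ∀ f : X →L[ℝ] ℝ, ∀ ε > 0, {e ∈ E | ε < |f e|}.Finite) (hι : ι.Injective)
    (t : K → X) (ht : ∀ i, t i ∈ E) (a : K → ℝ) {η : ℝ} (hη : 0 < η) :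
    ∃ c, Has E ι N j t a η c := by
  have : ∀ l, ∃ c : ℚ × ℚ × ℚ, ι (t l) ∈ Ioo (c.1 : ℝ) c.2.1 ∧
      |N (∑ i, a i • t i) (t l) - c.2.2| ≤ η ∧
      ∀ u ∈ E, η < |N (∑ i, a i • t i) u| → ι u ∈ Ioo (c.1 : ℝ) c.2.1 → u = t l := fun l => by
    obtain ⟨δ, δ0, h⟩ := Metric.isOpen_iff.1 (((hE (N (∑ i, a i • t i)) η hη).image ι).sdiff
      (t := {ι (t l)})).isClosed.isOpen_compl (ι (t l)) (by simp)
    obtain ⟨r, r1, r2⟩ := exists_rat_btwn (sub_lt_self (ι (t l)) δ0)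
    obtain ⟨s, s1, s2⟩ := exists_rat_btwn (lt_add_of_pos_right (ι (t l)) δ0)
    obtain ⟨q, hq⟩ := exists_rat_near (N (∑ i, a i • t i) (t l)) hη
    refine ⟨(r, s, q), ⟨r2, s1⟩, hq.le, fun u u1 u2 u3 => hι (by_contra fun k => ?_)⟩
    exact h (Real.ball_eq_Ioo _ _ ▸ ⟨r1.trans u3.1, u3.2.trans s2⟩) ⟨⟨u, ⟨u1, u2⟩, rfl⟩, k⟩
  choose c hc using this
  exact ⟨(fun J l => (_, _), c), ht, fun _ _ => rfl, hc⟩

theorem key (N1 : ∀ x, ‖N x‖ ≤ 1) (N2 : ∀ x, N x x = ‖x‖)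
    (hj : ∀ z, InjOn (j z) {e ∈ E | N z e ≠ 0}) {t s : K → X} {a b : K → ℝ} {η : ℝ} {c}
    (ht : Has E ι N j t (a - b) η c) (hs : Has E ι N j s (a - b) η c) :
    ‖∑ i, a i • s i - ∑ i, b i • s i‖ ≤
      3 * ‖∑ i, a i • t i - ∑ i, b i • s i‖ + η * ∑ i, (3 * |a i| + |b i|) := by
  classical
  obtain ⟨t1, t2, t3⟩ := ht
  obtain ⟨s1, s2, s3⟩ := hs
  obtain ⟨I, hI⟩ : ∃ I : Finset K, ∀ i, i ∈ I ↔ t i = s i :=
    ⟨Finset.univ.filter fun i => t i = s i, by simp⟩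
  have n : ∀ x v, N x v ≤ ‖v‖ := fun x v => (le_abs_self _).trans (((N x).le_opNorm v).trans
    (mul_le_of_le_one_left (norm_nonneg _) (N1 x)))
  obtain ⟨z, hz⟩ : ∃ z, z = ∑ i ∈ I, (a - b) i • t i := ⟨_, rfl⟩
  have hz' : z = ∑ i ∈ I, (a - b) i • s i :=
    hz.trans (Finset.sum_congr rfl fun i h => by rw [(hI i).1 h])
  have z0 : ∀ l ∉ I, N z (t l) = 0 ∧ N z (s l) = 0 := fun l hl => by
    have := (t2 I l).symm.trans (s2 I l)
    rw [← hz, ← hz', Prod.mk.injEq, eq_iff_iff] at this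
    have k : N z (t l) = 0 := by_contra fun k =>
      hl ((hI l).2 (hj z ⟨t1 l, k⟩ ⟨s1 l, this.1.1 k⟩ this.2))
    exact ⟨k, by_contra fun k' => this.1.2 k' k⟩
  obtain ⟨v, hv⟩ : ∃ v, v = ∑ i, a i • t i - ∑ i, b i • s i := ⟨_, rfl⟩
  have e : ∀ g : X →L[ℝ] ℝ, g v = g z + ∑ i ∈ Iᶜ, (a i * g (t i) - b i * g (s i)) := fun g => by
    rw [hv, ← Finset.sum_sub_distrib, ← Finset.sum_add_sum_compl I, map_add, map_sum g _ Iᶜ, hz]
    congr 1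
    · exact congrArg g (Finset.sum_congr rfl fun i h => by simp [(hI i).1 h, sub_smul])
    · simp
  have z1 : ‖z‖ ≤ ‖v‖ := by
    have := n z v
    rwa [e, N2, Finset.sum_eq_zero fun i h => by
      simp [z0 i (Finset.mem_compl.1 h)], add_zero] at this
  obtain ⟨f, hf⟩ : ∃ f, f = N (∑ i, (a - b) i • t i) := ⟨_, rfl⟩
  obtain ⟨g, hg⟩ : ∃ g, g = N (∑ i, (a - b) i • s i) := ⟨_, rfl⟩
  rw [← hf] at t3
  rw [← hg] at s3
  have k1 : ‖∑ i, a i • s i - ∑ i, b i • s i‖ =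
      g z + ∑ i ∈ Iᶜ, (a i * g (s i) - b i * g (s i)) := by
    have : ∑ i, a i • s i - ∑ i, b i • s i = ∑ i, (a - b) i • s i := by simp [sub_smul]
    rw [this, ← N2, ← hg, ← Finset.sum_add_sum_compl I, map_add, ← hz', map_sum]
    simp [sub_mul]
  have k2 : ∑ i ∈ Iᶜ, (a i * g (s i) - b i * g (s i)) ≤ ∑ i ∈ Iᶜ, ((a i * g (t i) - b i * g (s i)) +
      (a i * f (t i) - b i * f (s i)) + η * (3 * |a i| + |b i|)) := Finset.sum_le_sum fun i h => by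
    have h := mt (hI i).2 (Finset.mem_compl.1 h)
    have p1 : |g (t i)| ≤ η := not_lt.1 fun k => h ((s3 i).2.2 _ (t1 i) k (t3 i).1)
    have p2 : |f (s i)| ≤ η := not_lt.1 fun k => h ((t3 i).2.2 _ (s1 i) k (s3 i).1).symm
    have p3 := abs_le.1 (t3 i).2.1
    have p4 := abs_le.1 (s3 i).2.1
    have q : ∀ x y r : ℝ, |y| ≤ r → x * y ≤ r * |x| := fun x y r k => (le_abs_self _).trans (by
      rw [abs_mul, mul_comm]; gcongr)
    have := q (a i) (g (s i) - f (t i) - g (t i)) (3 * η) (by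
      have := abs_le.1 p1
      exact abs_le.2 ⟨by linarith, by linarith⟩)
    linarith [q (b i) _ _ p2]
  have η0 : ∀ i : K, 0 ≤ η := fun i => (abs_nonneg _).trans (t3 i).2.1
  have k3 : ∑ i ∈ Iᶜ, η * (3 * |a i| + |b i|) ≤ η * ∑ i, (3 * |a i| + |b i|) := by
    rw [Finset.mul_sum]
    exact Finset.sum_le_univ_sum_of_nonneg fun i => mul_nonneg (η0 i) (by positivity)
  rw [Finset.sum_add_distrib, Finset.sum_add_distrib] at k2
  have k4 : f (-z) ≤ ‖-z‖ := hf ▸ n _ _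
  rw [map_neg, norm_neg] at k4
  have k5 : f v ≤ ‖v‖ := hf ▸ n _ _
  have k6 : g v ≤ ‖v‖ := hg ▸ n _ _
  rw [← hv]
  linarith [e f, e g]

theorem app (hD : ∀ x, x ∈ closure (Submodule.span ℝ E : Set X)) (x : X) {ε : ℝ} (hε : 0 < ε) :
    ∃ (n : ℕ) (t : Fin n → X) (a : Fin n → ℚ), (∀ i, t i ∈ E) ∧
      dist x (∑ i, (a i : ℝ) • t i) < ε := by
  obtain ⟨y, hy, k⟩ := Metric.mem_closure_iff.1 (hD x) _ (half_pos hε)
  obtain ⟨n, c, t, rfl⟩ := Submodule.mem_span_set'.1 hy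
  obtain ⟨_, ⟨_, ⟨a, rfl⟩, rfl⟩, l⟩ := Metric.mem_closure_iff.1 (mem_closure_image
    (f := fun c : Fin n → ℝ => ∑ i, c i • (t i).1) (Continuous.continuousAt (by fun_prop))
    (DenseRange.piMap (fun _ => Rat.denseRange_cast) c)) _ (half_pos hε)
  exact ⟨n, fun i => t i, a, fun i => (t i).2, (dist_triangle _ _ _).trans_lt
    ((add_lt_add k l).trans_eq (add_halves ε))⟩

theorem emb (hE : ∀ f : X →L[ℝ] ℝ, ∀ ε > 0, {e ∈ E | ε < |f e|}.Finite) (hι : ι.Injective)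
    (hD : ∀ x, x ∈ closure (Submodule.span ℝ E : Set X)) :
    ∃ f : X → lp (fun _ : ℕ => ℝ) ⊤, ∀ x y : X,
      1 / 3 * dist x y ≤ dist (f x) (f y) ∧ dist (f x) (f y) ≤ 1 * dist x y := by
  choose N N1 N2 using exists_dual_vector'' ℝ (E := X)
  have : ∀ z, ∃ j : X → ℕ, InjOn j {e ∈ E | N z e ≠ 0} := fun z => countable_iff_exists_injOn.1
    ((countable_iUnion fun n : ℕ => (hE (N z) _ (Nat.one_div_pos_of_nat (n := n))).countable).mono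
      fun e h => mem_iUnion.2 ((exists_nat_one_div_lt (abs_pos.2 h.2)).imp fun n k => And.intro h.1 k))
  choose j hj using this
  obtain ⟨σ, hσ⟩ := exists_surjective_nat (Σ p : ℕ × ℕ, ((Fin p.1 ⊕ Fin p.2 → ℚ) ×
    (Fin p.1 ⊕ Fin p.2 → ℚ) × ℚ) × (Finset (Fin p.1 ⊕ Fin p.2) → Fin p.1 ⊕ Fin p.2 → Prop × ℕ) ×
      (Fin p.1 ⊕ Fin p.2 → ℚ × ℚ × ℚ))
  obtain ⟨A, hA⟩ : ∃ A : ℕ → Set X, ∀ n, A n = {x | ∃ t, Has E ι N j t
    ((fun i => ((σ n).2.1.1 i : ℝ)) - fun i => ((σ n).2.1.2.1 i : ℝ)) (σ n).2.1.2.2 (σ n).2.2 ∧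
      x = ∑ i, ((σ n).2.1.1 i : ℝ) • t i} := ⟨_, fun _ => rfl⟩
  have L : ∀ n x y, |Metric.infDist x (A n) - Metric.infDist y (A n)| ≤ dist x y := fun n x y => by
    simpa [Real.dist_eq] using (Metric.lipschitz_infDist_pt (A n)).dist_le_mul x y
  obtain ⟨f, hf⟩ : ∃ f : X → lp (fun _ : ℕ => ℝ) ⊤, ∀ x n,
      f x n = Metric.infDist x (A n) - Metric.infDist 0 (A n) :=
    ⟨fun x => ⟨_, memℓp_infty ⟨dist x 0, forall_mem_range.2 fun n => L n x 0⟩⟩, fun _ _ => rfl⟩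
  have d : ∀ x y n, (f x - f y) n = Metric.infDist x (A n) - Metric.infDist y (A n) := by
    simp [hf]
  refine ⟨f, fun x y => ⟨le_of_forall_pos_le_add fun ε hε => ?_, ?_⟩⟩
  · have e : 0 < ε / 5 := by positivity
    obtain ⟨n, t, a, t1, t2⟩ := app hD x e
    obtain ⟨m, s, b, s1, s2⟩ := app hD y e
    obtain ⟨S, hS⟩ : ∃ S : ℝ, S = ∑ i : Fin n ⊕ Fin m,
      (3 * |((Sum.elim a 0 i : ℚ) : ℝ)| + |((Sum.elim 0 b i : ℚ) : ℝ)|) := ⟨_, rfl⟩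
    have S0 : 0 ≤ S := hS ▸ by positivity
    obtain ⟨η, η0, η1⟩ := exists_rat_btwn (show 0 < ε / (S + 1) by positivity)
    obtain ⟨c, hc⟩ := ex (N := N) (j := j) hE hι (Sum.elim t s) (Sum.rec t1 s1)
      ((fun i => ((Sum.elim a 0 i : ℚ) : ℝ)) - fun i => ((Sum.elim 0 b i : ℚ) : ℝ)) η0
    obtain ⟨k, hk⟩ := hσ ⟨(n, m), (Sum.elim a 0, Sum.elim 0 b, η), c⟩
    have a1 : ∑ i, (a i : ℝ) • t i ∈ A k := by
      rw [hA, hk]
      exact ⟨_, hc, by simp⟩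
    have a2 : (dist (∑ i, (a i : ℝ) • t i) (∑ i, (b i : ℝ) • s i) - η * S) / 3 ≤
        Metric.infDist (∑ i, (b i : ℝ) • s i) (A k) := (Metric.le_infDist ⟨_, a1⟩).2 fun u hu => by
      rw [hA, hk] at hu
      obtain ⟨r, hr, rfl⟩ := hu
      have := key N1 N2 hj hr hc
      rw [← hS, ← dist_eq_norm, ← dist_eq_norm] at this
      simp only [Fintype.sum_sum_type, Sum.elim_inl, Sum.elim_inr, Pi.zero_apply, Rat.cast_zero,
        zero_smul, Finset.sum_const_zero, add_zero, zero_add] at this ⊢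
      rw [dist_comm (∑ i, (b i : ℝ) • s i)]
      linarith
    have a3 := lp.norm_apply_le_norm ENNReal.top_ne_zero (f x - f y) k
    rw [d, ← dist_eq_norm (f x)] at a3
    have a4 := (Metric.infDist_le_dist_of_mem (x := x) a1).trans t2.le
    have a5 := (abs_le.1 ((L k y _).trans s2.le)).1
    rw [lt_div_iff₀ (by positivity)] at η1
    have a6 := dist_triangle4 x (∑ i, (a i : ℝ) • t i) (∑ i, (b i : ℝ) • s i) y
    rw [dist_comm (∑ i, (b i : ℝ) • s i) y] at a6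
    linarith [(abs_le.1 a3).1, mul_add (η : ℝ) S 1]
  · rw [dist_eq_norm, one_mul]
    exact lp.norm_le_of_forall_le dist_nonneg fun n => d x y n ▸ L n x y

theorem main (R : Function.Surjective (NormedSpace.inclusionInDoubleDual ℝ X)) {D : Set X}
    (h1 : Dense D) (h2 : #D = continuum) :
    ∃ f : X → lp (fun _ : ℕ => ℝ) ⊤, ∀ x y : X,
      1 / 3 * dist x y ≤ dist (f x) (f y) ∧ dist (f x) (f y) ≤ 1 * dist x y := by
  obtain ⟨E, -, -, e1, e2⟩ := fam R _ ⊤ isClosed_univ D le_rfl fun x _ => h1 x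
  have : ∀ x : X, ∃ u : ℕ → D, Tendsto (fun n => (u n).1) atTop (𝓝 x) := fun x => by
    obtain ⟨u, u1, u2⟩ := mem_closure_iff_seq_limit.1 (h1 x)
    exact ⟨fun n => ⟨_, u1 n⟩, u2⟩
  choose u hu using this
  have : #X ≤ #ℝ := (mk_le_of_injective (f := u) fun x y h =>
    tendsto_nhds_unique (hu x) (h ▸ hu y)).trans_eq (by simp [h2, mk_real])
  obtain ⟨ι⟩ := this
  exact emb e1 ι.injective fun x => e2 trivial

end Pool.Agent.H.MP_16d9f2
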